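import Pool.Agent.Y752.QF.Stm

/-!
# Project QF: the box sum and the prediction, outside a small set
-/

set_option autoImplicit false

namespace Pool.Agent.Y547.QF

open MeasureTheory Set Filter Complex Topology
open Pool.Agent.TH612.GS (mP zN)
open Pool.Agent.TH612.CF (pw pw_apply)
open Pool.Agent.Y752.QF
open scoped ENNReal

theorem cont_prod {k : ℕ} (s : Finset (Fin k)) : ∀ m : ℕ,
    Continuous fun γ : Fin k → ℝ => (∏ j ∈ s, pw (-(I * (γ j : ℂ)))) m := by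
  classical
  induction s using Finset.induction_on with
  | empty =>
    intro m
    simp only [Finset.prod_empty]
    exact continuous_const
  | insert j s hj ih =>
    intro m
    simp only [Finset.prod_insert hj, ArithmeticFunction.mul_apply]
    refine continuous_finset_sum _ fun x hx => ?_
    refine Continuous.mul ?_ (ih _)
    by_cases h0 : x.1 = 0
    · simp only [h0, ArithmeticFunction.map_zero]
      exact continuous_const
    · simp only [pw_apply _ h0]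
      refine Continuous.const_cpow (by fun_prop) (Or.inl ?_)
      exact_mod_cast h0

theorem cont_DS {k : ℕ} (Y : ℕ) : Continuous fun γ : Fin k → ℝ => DS Y γ := by
  unfold DS
  refine continuous_finset_sum _ fun n hn => ?_
  refine Continuous.mul continuous_const ?_
  refine continuous_finset_prod _ fun j _ => ?_
  refine Continuous.const_cpow (by fun_prop) (Or.inl ?_)
  have h1 := Fintype.mem_piFinset.1 hn j
  rw [Finset.mem_Icc] at h1
  have h2 : n j ≠ 0 := by omega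
  exact_mod_cast h2

theorem cont_AN2 {k : ℕ} (N : ℕ) : Continuous fun γ : Fin k → ℝ => AN2 N γ := by
  unfold AN2 D2
  refine continuous_finset_sum _ fun m hm => ?_
  exact Continuous.div_const (Continuous.mul continuous_const (cont_prod Finset.univ (m ^ 2))) _

theorem markov {k : ℕ} {H : ℝ} {f : (Fin k → ℝ) → ℂ} (hf : Continuous f) {θ M : ℝ} (hθ : 0 < θ)
    (h : ∫⁻ γ, ENNReal.ofReal (‖f γ‖ ^ 2) ∂(mP (Fin k) H) ≤ ENNReal.ofReal M) :
    mP (Fin k) H {γ | θ ≤ ‖f γ‖ ^ 2} ≤ ENNReal.ofReal (M / θ) := by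
  have h1 : {γ | θ ≤ ‖f γ‖ ^ 2} ⊆ {γ | ENNReal.ofReal θ ≤ ENNReal.ofReal (‖f γ‖ ^ 2)} :=
    fun γ hγ => ENNReal.ofReal_le_ofReal hγ
  have hc : Continuous fun γ => ‖f γ‖ ^ 2 := by fun_prop
  have hm : Measurable fun γ => ENNReal.ofReal (‖f γ‖ ^ 2) :=
    ENNReal.measurable_ofReal.comp hc.measurable
  have h2 := meas_ge_le_lintegral_div (μ := mP (Fin k) H)
    (f := fun γ => ENNReal.ofReal (‖f γ‖ ^ 2)) hm.aemeasurable
    (ε := ENNReal.ofReal θ) (by simpa using hθ) ENNReal.ofReal_ne_top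
  calc mP (Fin k) H {γ | θ ≤ ‖f γ‖ ^ 2}
      ≤ mP (Fin k) H {γ | ENNReal.ofReal θ ≤ ENNReal.ofReal (‖f γ‖ ^ 2)} := measure_mono h1
    _ ≤ (∫⁻ γ, ENNReal.ofReal (‖f γ‖ ^ 2) ∂(mP (Fin k) H)) / ENNReal.ofReal θ := h2
    _ ≤ ENNReal.ofReal M / ENNReal.ofReal θ := ENNReal.div_le_div_right h _
    _ = _ := (ENNReal.ofReal_div_of_pos hθ).symm

theorem sep_compl (k : ℕ) {H : ℝ} (hH : 1 ≤ H) :
    mP (Fin k) H (Sep2 k H)ᶜ ≤ ENNReal.ofReal (k * (H ^ k * H ^ (-(1 / 2) : ℝ))) := by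
  have hH0 : 0 < H := by linarith
  have h1 : (Sep2 k H)ᶜ ⊆
      ⋃ j : Fin k, {γ : Fin k → ℝ | ¬ (H ^ (1 / 2 : ℝ) ≤ γ j ∧ γ j ≤ H)} := by
    intro γ hγ
    simp only [Sep2, mem_compl_iff, mem_setOf_eq, not_forall] at hγ
    obtain ⟨j, hj⟩ := hγ
    exact mem_iUnion.2 ⟨j, hj⟩
  refine (measure_mono h1).trans ((measure_iUnion_le _).trans ?_)
  rw [tsum_fintype]
  have h2 : ∀ j : Fin k, mP (Fin k) H {γ : Fin k → ℝ | ¬ (H ^ (1 / 2 : ℝ) ≤ γ j ∧ γ j ≤ H)} ≤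
      ENNReal.ofReal (H ^ k * H ^ (-(1 / 2) : ℝ)) := by
    intro j
    obtain ⟨S, hS⟩ : ∃ S : Set ℝ, S = {x | ¬ (H ^ (1 / 2 : ℝ) ≤ x ∧ x ≤ H)} := ⟨_, rfl⟩
    have e1 : {γ : Fin k → ℝ | ¬ (H ^ (1 / 2 : ℝ) ≤ γ j ∧ γ j ≤ H)} =
        Set.pi univ (fun i => if i = j then S else univ) := by
      ext γ
      simp only [mem_setOf_eq, Set.mem_pi, mem_univ, true_implies]
      constructor
      · intro h i
        by_cases hi : i = j
        · rw [if_pos hi, hS, hi]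
          exact h
        · rw [if_neg hi]
          trivial
      · intro h
        have := h j
        rw [if_pos rfl, hS] at this
        exact this
    have e3 : (volume.restrict (Icc 0 H)) S ≤ ENNReal.ofReal (H * H ^ (-(1 / 2) : ℝ)) := by
      rw [Measure.restrict_apply' measurableSet_Icc]
      have e4 : S ∩ Icc 0 H ⊆ Ico 0 (H ^ (1 / 2 : ℝ)) := by
        rintro x ⟨hx1, hx2⟩
        rw [hS] at hx1
        refine ⟨hx2.1, ?_⟩
        by_contra h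
        push Not at h
        exact hx1 ⟨h, hx2.2⟩
      refine (measure_mono e4).trans ?_
      rw [Real.volume_Ico, sub_zero]
      apply ENNReal.ofReal_le_ofReal
      have : H * H ^ (-(1 / 2) : ℝ) = H ^ (1 / 2 : ℝ) := by
        nth_rewrite 1 [← Real.rpow_one H]
        rw [← Real.rpow_add hH0]
        norm_num
      rw [this]
    have e2 : ∀ i : Fin k, (volume.restrict (Icc 0 H)) (if i = j then S else univ) ≤
        ENNReal.ofReal (H * if i = j then H ^ (-(1 / 2) : ℝ) else 1) := by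
      intro i
      by_cases hi : i = j
      · rw [if_pos hi, if_pos hi]
        exact e3
      · rw [if_neg hi, if_neg hi, Measure.restrict_apply' measurableSet_Icc, univ_inter,
          Real.volume_Icc, sub_zero, mul_one]
    rw [e1]
    unfold mP
    rw [Measure.pi_pi]
    calc ∏ i, (volume.restrict (Icc 0 H)) (if i = j then S else univ)
        ≤ ∏ i, ENNReal.ofReal (H * if i = j then H ^ (-(1 / 2) : ℝ) else 1) :=
          Finset.prod_le_prod' fun i _ => e2 i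
      _ = ENNReal.ofReal (∏ i, (H * if i = j then H ^ (-(1 / 2) : ℝ) else 1)) := by
          rw [ENNReal.ofReal_prod_of_nonneg]
          intro i _
          split_ifs <;> positivity
      _ = _ := by
          congr 1
          rw [Finset.prod_mul_distrib, Finset.prod_const, Finset.card_univ, Fintype.card_fin,
            Finset.prod_ite_eq']
          simp
  calc ∑ j : Fin k, mP (Fin k) H {γ : Fin k → ℝ | ¬ (H ^ (1 / 2 : ℝ) ≤ γ j ∧ γ j ≤ H)}
      ≤ ∑ _j : Fin k, ENNReal.ofReal (H ^ k * H ^ (-(1 / 2) : ℝ)) :=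
        Finset.sum_le_sum fun j _ => h2 j
    _ = _ := by
        rw [Finset.sum_const, Finset.card_univ, Fintype.card_fin, nsmul_eq_mul,
          ENNReal.ofReal_mul (p := (k : ℝ)) (by positivity), ENNReal.ofReal_natCast]

theorem MT (h1 : S_BX) (h2 : S_GA) (h3 : S_ZT) (h4 : S_PS) : S_MT := by
  intro k A hA
  obtain ⟨gg, hgg0, hggs, hps⟩ := h4 k
  obtain ⟨G, hG⟩ : ∃ G : ℝ, G = ∑' b : ℕ, gg b * (b : ℝ) ^ (-(1:ℝ)) := ⟨_, rfl⟩
  have hG0 : 0 ≤ G := by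
    rw [hG]
    exact tsum_nonneg fun b => mul_nonneg (hgg0 b) (by positivity)
  have hGb : ∀ γ : Fin k → ℝ, ‖arithA γ‖ ≤ G := by
    intro γ
    obtain ⟨ps, hps1, -, hps3⟩ := hps γ
    rw [← hps3, hG]
    refine tsum_of_norm_bounded (hggs 1 (by norm_num)).hasSum fun b => ?_
    rw [norm_div, Complex.norm_natCast, Real.rpow_neg_one, ← div_eq_mul_inv]
    exact div_le_div_of_nonneg_right (hps1 b) (by positivity)
  obtain ⟨δ, hδ⟩ : ∃ δ : ℝ, δ = 1 / (8 * (k + 3)) := ⟨_, rfl⟩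
  have hδ0 : 0 < δ := by rw [hδ]; positivity
  have hδk : 8 * δ * (k + 3) = 1 := by
    rw [hδ]
    field_simp
  have hk0 : (0:ℝ) ≤ k := by positivity
  obtain ⟨ε, hε⟩ : ∃ ε : ℝ, ε = δ / A := ⟨_, rfl⟩
  have hA0 : 0 < A := by linarith
  have hε0 : 0 < ε := by rw [hε]; positivity
  have hAε : A * ε = δ := by
    rw [hε]
    field_simp
  obtain ⟨C₁, hC₁, H1⟩ := h1 k ε hε0
  obtain ⟨C₂, hC₂, H2⟩ := h2 k ε hε0
  obtain ⟨C₃, T₀, B, hC₃, hT₀, H3⟩ := h3 k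
  obtain ⟨η, hη⟩ : ∃ η : ℝ, η = ε / (B + 1) := ⟨_, rfl⟩
  have hη0 : 0 < η := by rw [hη]; positivity
  have hηB : η * B ≤ ε := by
    have : η * (B + 1) = ε := by
      rw [hη]
      field_simp
    nlinarith
  obtain ⟨CB, hCB⟩ : ∃ CB : ℝ, CB = (η ^ B)⁻¹ := ⟨_, rfl⟩
  have hCB0 : 0 < CB := by rw [hCB]; positivity
  obtain ⟨Ct, hCt⟩ : ∃ Ct : ℝ, Ct = 18 * C₁ + 18 * C₂ + 18 * (C₃ * CB) * (G + 1) ^ 2 + k :=
    ⟨_, rfl⟩
  have t1 : Tendsto (fun Y : ℕ => (Y : ℝ) ^ δ) atTop atTop :=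
    (tendsto_rpow_atTop hδ0).comp tendsto_natCast_atTop_atTop
  have t2 : Tendsto (fun Y : ℕ => (Y : ℝ)) atTop atTop := tendsto_natCast_atTop_atTop
  obtain ⟨Y0, hY0⟩ := eventually_atTop.1 ((t1.eventually_ge_atTop Ct).and
    ((t2.eventually_ge_atTop T₀).and (eventually_ge_atTop 1)))
  refine ⟨δ, Y0, hδ0, ?_⟩
  intro H Y hY hYH hHY
  obtain ⟨q1, q2, q3⟩ := hY0 Y hY
  obtain ⟨y, hy⟩ : ∃ y : ℝ, y = (Y : ℝ) := ⟨_, rfl⟩
  obtain ⟨p, hp⟩ : ∃ p : ℝ, p = y ^ δ := ⟨_, rfl⟩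
  have hy1 : 1 ≤ y := by rw [hy]; exact_mod_cast q3
  have hy0 : 0 < y := by linarith
  have hp1 : 1 ≤ p := by rw [hp]; exact Real.one_le_rpow hy1 hδ0.le
  have hp0 : 0 < p := by linarith
  rw [← hy] at q1 q2 hYH hHY
  rw [← hp] at q1
  have hH1 : 1 ≤ H := hy1.trans hYH
  have hH0 : 0 < H := by linarith
  have hpow : ∀ n : ℕ, p ^ n = y ^ (δ * n) := by
    intro n
    rw [hp, ← Real.rpow_natCast, ← Real.rpow_mul hy0.le]
  have hHε : H ^ ε ≤ p := by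
    calc H ^ ε ≤ (y ^ A) ^ ε := Real.rpow_le_rpow hH0.le hHY hε0.le
      _ = p := by rw [← Real.rpow_mul hy0.le, hAε, hp]
  have hlog : Real.log H ^ B ≤ CB * p := by
    have e1 : Real.log H ≤ H ^ η / η := Real.log_le_rpow_div hH0.le hη0
    have e2 : 0 ≤ Real.log H := Real.log_nonneg hH1
    calc Real.log H ^ B ≤ (H ^ η / η) ^ B := pow_le_pow_left₀ e2 e1 B
      _ = CB * H ^ (η * B) := by
        rw [div_pow, hCB, ← Real.rpow_natCast (H ^ η), ← Real.rpow_mul hH0.le]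
        ring
      _ ≤ CB * H ^ ε := by
        apply mul_le_mul_of_nonneg_left _ hCB0.le
        exact Real.rpow_le_rpow_of_exponent_le hH1 hηB
      _ ≤ _ := mul_le_mul_of_nonneg_left hHε hCB0.le
  -- the length
  obtain ⟨N, hN⟩ : ∃ N : ℕ, N = ⌊p ^ 8⌋₊ := ⟨_, rfl⟩
  have hN1 : 1 ≤ N := by
    rw [hN]
    apply Nat.le_floor
    rw [Nat.cast_one]
    exact one_le_pow₀ hp1
  have hNle : (N : ℝ) ≤ p ^ 8 := by
    rw [hN]
    exact Nat.floor_le (by positivity)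
  have hN1' : (1:ℝ) ≤ N := by exact_mod_cast hN1
  have hNge : p ^ 8 / 2 ≤ N := by
    have := Nat.lt_floor_add_one (p ^ 8)
    rw [← hN] at this
    linarith
  have hNpos : (0:ℝ) < N := by linarith
  have hpy : ∀ n : ℕ, δ * n ≤ 1 → p ^ n ≤ y := by
    intro n hn
    rw [hpow]
    calc y ^ (δ * n) ≤ y ^ (1:ℝ) := Real.rpow_le_rpow_of_exponent_le hy1 hn
      _ = y := Real.rpow_one y
  have hN2 : N ^ 2 ≤ Y := by
    have e1 : (N : ℝ) ^ 2 ≤ y := by
      calc (N : ℝ) ^ 2 ≤ (p ^ 8) ^ 2 := pow_le_pow_left₀ hNpos.le hNle 2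
        _ = p ^ 16 := by ring
        _ ≤ y := hpy 16 (by push_cast; nlinarith)
    rw [hy] at e1
    exact_mod_cast e1
  have hNk : (N : ℝ) ^ (k + 1) ≤ H := by
    calc (N : ℝ) ^ (k + 1) ≤ (p ^ 8) ^ (k + 1) := pow_le_pow_left₀ hNpos.le hNle _
      _ = p ^ (8 * (k + 1)) := by rw [← pow_mul]
      _ ≤ y := hpy _ (by push_cast; nlinarith)
      _ ≤ H := hYH
  have hNH : (N : ℝ) ≤ H := by
    calc (N : ℝ) ≤ p ^ 8 := hNle
      _ ≤ y := hpy 8 (by push_cast; nlinarith)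
      _ ≤ H := hYH
  have hyδ : (Y : ℝ) ^ (-δ) = p⁻¹ := by rw [← hy, Real.rpow_neg hy0.le, hp]
  rw [hyδ]
  have hpi : 0 < p⁻¹ := by positivity
  -- the four sets
  obtain ⟨θ, hθ⟩ : ∃ θ : ℝ, θ = (p⁻¹ / 3) ^ 2 := ⟨_, rfl⟩
  obtain ⟨θ', hθ'⟩ : ∃ θ' : ℝ, θ' = (p⁻¹ / (3 * (G + 1))) ^ 2 := ⟨_, rfl⟩
  have hθ0 : 0 < θ := by rw [hθ]; positivity
  have hθ'0 : 0 < θ' := by rw [hθ']; positivity
  have m1 := markov ((cont_DS (k := k) Y).sub (cont_AN2 N)) hθ0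
    (H1 H N Y hN1 hN2 (by rw [← hy]; exact hYH))
  have m2 := H2 H θ N hθ0 hN1 hNk
  have m3 := H3 H θ' N (q2.trans hYH) hθ'0 hN1 hNH
  have m4 := sep_compl k hH1
  have hsub : {γ : Fin k → ℝ | p⁻¹ < ‖DS Y γ - Mt γ‖} ⊆
      {γ | θ ≤ ‖DS Y γ - AN2 N γ‖ ^ 2} ∪ ({γ | θ ≤ ‖AN2 N γ - arithA γ * QQ2 N γ‖ ^ 2} ∪
        ((Sep2 k H ∩ {γ | θ' ≤ ‖QQ2 N γ - ∏ e ∈ Ed k, riemannZeta (1 + le γ e)‖ ^ 2}) ∪
          (Sep2 k H)ᶜ)) := by
    intro γ hγ
    by_contra hcon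
    simp only [mem_union, mem_setOf_eq, mem_inter_iff, mem_compl_iff, not_or, not_and, not_le,
      not_not] at hcon
    obtain ⟨c1, c2, c3, c4⟩ := hcon
    have c3' := c3 c4
    rw [hθ] at c1 c2
    rw [hθ'] at c3'
    have d1 : ‖DS Y γ - AN2 N γ‖ < p⁻¹ / 3 := lt_of_pow_lt_pow_left₀ 2 (by positivity) c1
    have d2 : ‖AN2 N γ - arithA γ * QQ2 N γ‖ < p⁻¹ / 3 :=
      lt_of_pow_lt_pow_left₀ 2 (by positivity) c2
    have d3 : ‖QQ2 N γ - ∏ e ∈ Ed k, riemannZeta (1 + le γ e)‖ < p⁻¹ / (3 * (G + 1)) :=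
      lt_of_pow_lt_pow_left₀ 2 (by positivity) c3'
    have d4 : ‖arithA γ * (QQ2 N γ - ∏ e ∈ Ed k, riemannZeta (1 + le γ e))‖ ≤ p⁻¹ / 3 := by
      rw [norm_mul]
      calc ‖arithA γ‖ * ‖QQ2 N γ - ∏ e ∈ Ed k, riemannZeta (1 + le γ e)‖
          ≤ (G + 1) * (p⁻¹ / (3 * (G + 1))) := by
            apply mul_le_mul _ d3.le (norm_nonneg _) (by positivity)
            have := hGb γ
            linarith
        _ = p⁻¹ / 3 := by
            have : G + 1 ≠ 0 := by positivity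
            field_simp
    have d5 : DS Y γ - Mt γ = (DS Y γ - AN2 N γ) + (AN2 N γ - arithA γ * QQ2 N γ) +
        arithA γ * (QQ2 N γ - ∏ e ∈ Ed k, riemannZeta (1 + le γ e)) := by
      unfold Mt
      ring
    have d6 := norm_add₃_le (a := DS Y γ - AN2 N γ) (b := AN2 N γ - arithA γ * QQ2 N γ)
      (c := arithA γ * (QQ2 N γ - ∏ e ∈ Ed k, riemannZeta (1 + le γ e)))
    rw [← d5] at d6
    have d7 : p⁻¹ < ‖DS Y γ - Mt γ‖ := hγ
    linarith
  -- the numbers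
  obtain ⟨M, hM⟩ : ∃ M : ℝ, M = H ^ k / p ^ 5 := ⟨_, rfl⟩
  have hHk : 0 < H ^ k := by positivity
  have hM0 : 0 < M := by rw [hM]; positivity
  have gen : ∀ c a g : ℝ, 0 < c → 0 ≤ a → a ≤ p → 0 < g →
      c * H ^ k * a / N / (p⁻¹ / (3 * g)) ^ 2 ≤ 18 * c * g ^ 2 * M := by
    intro c a g hc ha hap hg
    calc c * H ^ k * a / N / (p⁻¹ / (3 * g)) ^ 2
        ≤ c * H ^ k * p / (p ^ 8 / 2) / (p⁻¹ / (3 * g)) ^ 2 := by
          gcongr
      _ = 18 * c * g ^ 2 * M := by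
          rw [hM]
          field_simp
          ring
  have n1 : C₁ * H ^ k * H ^ ε / N / θ ≤ 18 * C₁ * M := by
    have := gen C₁ (H ^ ε) 1 (by linarith) (by positivity) hHε one_pos
    rw [hθ]
    simpa using this
  have n2 : C₂ * H ^ k * H ^ ε / (N * θ) ≤ 18 * C₂ * M := by
    have := gen C₂ (H ^ ε) 1 (by linarith) (by positivity) hHε one_pos
    rw [← div_div, hθ]
    simpa using this
  have n3 : C₃ * Real.log H ^ B * H ^ k / (N * θ') ≤ 18 * (C₃ * CB) * (G + 1) ^ 2 * M := by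
    have e1 := gen (C₃ * CB) p (G + 1) (by positivity) hp0.le le_rfl (by positivity)
    rw [← div_div, hθ']
    refine le_trans ?_ e1
    have e2 : C₃ * Real.log H ^ B * H ^ k ≤ C₃ * CB * H ^ k * p := by
      calc C₃ * Real.log H ^ B * H ^ k ≤ C₃ * (CB * p) * H ^ k := by gcongr
        _ = _ := by ring
    gcongr
  have n4 : (k : ℝ) * (H ^ k * H ^ (-(1 / 2) : ℝ)) ≤ k * M := by
    apply mul_le_mul_of_nonneg_left _ hk0
    rw [hM, div_eq_mul_inv]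
    apply mul_le_mul_of_nonneg_left _ hHk.le
    rw [Real.rpow_neg hH0.le]
    apply inv_anti₀ (by positivity)
    rw [hpow]
    calc y ^ (δ * (5:ℕ)) ≤ y ^ (1 / 2 : ℝ) :=
          Real.rpow_le_rpow_of_exponent_le hy1 (by push_cast; nlinarith)
      _ ≤ H ^ (1 / 2 : ℝ) := Real.rpow_le_rpow hy0.le hYH (by norm_num)
  have hfin : C₁ * H ^ k * H ^ ε / N / θ + (C₂ * H ^ k * H ^ ε / (N * θ) +
      (C₃ * Real.log H ^ B * H ^ k / (N * θ') + (k : ℝ) * (H ^ k * H ^ (-(1 / 2) : ℝ)))) ≤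
      H ^ k * p⁻¹ := by
    calc _ ≤ Ct * M := by
          rw [hCt]
          linarith
      _ ≤ p ^ 4 * M := by
          apply mul_le_mul_of_nonneg_right _ hM0.le
          refine q1.trans ?_
          calc p = p ^ 1 := (pow_one p).symm
            _ ≤ p ^ 4 := pow_le_pow_right₀ hp1 (by norm_num)
      _ = H ^ k * p⁻¹ := by
          rw [hM]
          field_simp
  have hL : 0 ≤ Real.log H := Real.log_nonneg hH1
  calc mP (Fin k) H {γ : Fin k → ℝ | p⁻¹ < ‖DS Y γ - Mt γ‖}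
      ≤ _ := measure_mono hsub
    _ ≤ _ := (measure_union_le _ _).trans (add_le_add m1 ((measure_union_le _ _).trans
        (add_le_add m2 ((measure_union_le _ _).trans (add_le_add m3 m4)))))
    _ = ENNReal.ofReal (C₁ * H ^ k * H ^ ε / N / θ + (C₂ * H ^ k * H ^ ε / (N * θ) +
      (C₃ * Real.log H ^ B * H ^ k / (N * θ') + (k : ℝ) * (H ^ k * H ^ (-(1 / 2) : ℝ))))) := by
        rw [ENNReal.ofReal_add, ENNReal.ofReal_add, ENNReal.ofReal_add] <;> positivity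
    _ ≤ _ := ENNReal.ofReal_le_ofReal hfin

end Pool.Agent.Y547.QF
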